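import Pool.Agent.helper45.BR.Spec

/-! br: WSQ: a wandering sequence of components. -/

set_option autoImplicit false

open Complex Metric Set Filter Topology MeasureTheory MPS Pool.Agent.helper98.ILF
  Pool.Agent.helper16.Multibrot

noncomputable section

namespace BR

theorem WSQ (hBAS : BAS_stmt) (hCMP : CMP_stmt) (hNPC : NPC_stmt) (hINJ : INJ_stmt) :
    WSQ_stmt := by
  intro n c hn hc hAR hne
  obtain ⟨z₀, hz₀⟩ := hne
  obtain ⟨-, -, hW, -, -⟩ := hBAS n c hn hc
  have hz : ∀ k, (fc n c)^[k] z₀ ∈ interior (filled n c) := by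
    intro k
    induction k with
    | zero => exact hz₀
    | succ k ih =>
      rw [Function.iterate_succ_apply']
      exact (hW _).1 ih
  obtain ⟨V, hV⟩ : ∃ V : ℕ → Set ℂ, V = fun k =>
      connectedComponentIn (interior (filled n c)) ((fc n c)^[k] z₀) := ⟨_, rfl⟩
  have hcomp : ∀ k, IsComp n c (V k) := by
    intro k
    refine ⟨(fc n c)^[k] z₀, hz k, ?_⟩
    rw [hV]
  have hzV : ∀ k, (fc n c)^[k] z₀ ∈ V k := by
    intro k
    rw [hV]
    exact mem_connectedComponentIn (hz k)
  have hmap : ∀ k j, MapsTo ((fc n c)^[j]) (V k) (V (j + k)) := by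
    intro k j x hx
    obtain ⟨-, -, -, -, -, -, -, h8⟩ := hCMP n c (V k) hn hc (hcomp k)
    have h1 := h8 j _ (hzV k) (Set.mem_image_of_mem _ hx)
    rw [← Function.iterate_add_apply] at h1
    rw [hV]
    exact h1
  have hneq : ∀ j k, j < k → V j ≠ V k := by
    intro j k hjk he
    refine hNPC n c (V j) (k - j) hn hc hAR (hcomp j) (by omega) ?_
    have h1 := hmap j (k - j)
    have h2 : k - j + j = k := by omega
    rw [h2, ← he] at h1
    exact h1
  have hdis : ∀ j k, j ≠ k → Disjoint (V j) (V k) := by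
    intro j k hjk
    obtain ⟨-, -, -, -, -, -, h7, -⟩ := hCMP n c (V j) hn hc (hcomp j)
    rcases h7 (V k) (hcomp k) with h | h
    · exfalso
      rcases lt_or_gt_of_ne hjk with hlt | hlt
      · exact hneq j k hlt h
      · exact hneq k j hlt h.symm
    · exact h
  have hN : ∃ N, ∀ k, N ≤ k → (0 : ℂ) ∉ V k := by
    by_cases h : ∃ k, (0 : ℂ) ∈ V k
    · obtain ⟨k₀, hk₀⟩ := h
      refine ⟨k₀ + 1, fun k hk hk' => ?_⟩
      exact Set.disjoint_left.1 (hdis k₀ k (by omega)) hk₀ hk'
    · push Not at h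
      exact ⟨0, fun k _ => h k⟩
  obtain ⟨N, hN⟩ := hN
  refine ⟨fun k => V (N + k), fun k => hcomp _, ?_, ?_, ?_, fun k => hN _ (by omega)⟩
  · intro k
    have h1 := hmap (N + k) 1
    rw [Function.iterate_one] at h1
    have h2 : 1 + (N + k) = N + (k + 1) := by omega
    rw [h2] at h1
    exact h1
  · intro k
    exact hINJ n c (V (N + k)) hn hc (hcomp _) (hN _ (by omega))
  · intro j k hjk
    exact hdis _ _ (by omega)

end BR
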